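import Mathlib

/-!
Joint eigenvectors of commuting operators.
-/

set_option autoImplicit false

namespace Pool.Agent.U598.GR

theorem joint {K : Type} [Field K] [IsAlgClosed K] {n : ℕ} {E : Type} [AddCommGroup E] [Module K E]
    [FiniteDimensional K E] [Nontrivial E] (T : Fin n → Module.End K E)
    (hT : ∀ j k v, T j (T k v) = T k (T j v)) :
    ∃ v : E, v ≠ 0 ∧ ∃ z : Fin n → K, ∀ k, T k v = z k • v := by
  classical
  have hex : ∃ d : ℕ, ∃ W : Submodule K E, W ≠ ⊥ ∧ (∀ k, ∀ w ∈ W, T k w ∈ W) ∧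
      Module.finrank K W = d := ⟨_, ⊤, top_ne_bot, fun _ _ _ => trivial, rfl⟩
  obtain ⟨W, hW0, hWT, hWd⟩ := Nat.find_spec hex
  have hmin : ∀ W' : Submodule K E, W' ≠ ⊥ → (∀ k, ∀ w ∈ W', T k w ∈ W') →
      Module.finrank K W ≤ Module.finrank K W' := by
    intro W' h1 h2
    rw [hWd]
    exact Nat.find_min' hex ⟨W', h1, h2, rfl⟩
  have hnt : Nontrivial W := Submodule.nontrivial_iff_ne_bot.2 hW0
  have hz : ∀ k, ∃ c : K, ∀ w ∈ W, T k w = c • w := by
    intro k
    obtain ⟨c, hc⟩ := Module.End.exists_eigenvalue ((T k).restrict (hWT k))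
    obtain ⟨v, hv⟩ := hc.exists_hasEigenvector
    obtain ⟨W', hW'⟩ : ∃ W' : Submodule K E, W' = W ⊓ LinearMap.ker (T k - c • LinearMap.id) :=
      ⟨_, rfl⟩
    have hmem : ∀ w, w ∈ W' ↔ w ∈ W ∧ T k w = c • w := by
      intro w
      rw [hW', Submodule.mem_inf, LinearMap.mem_ker, LinearMap.sub_apply, LinearMap.smul_apply,
        LinearMap.id_apply, sub_eq_zero]
    have h1 : W' ≠ ⊥ := by
      intro h
      have h2 : (v : E) ∈ W' := by
        rw [hmem]
        refine ⟨v.2, ?_⟩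
        have h3 := congrArg Subtype.val hv.apply_eq_smul
        exact h3
      rw [h, Submodule.mem_bot] at h2
      exact hv.2 (Subtype.ext h2)
    have h2 : W' = W := by
      refine Submodule.eq_of_le_of_finrank_le (by rw [hW']; exact inf_le_left) (hmin W' h1 ?_)
      intro j w hw
      rw [hmem] at hw ⊢
      exact ⟨hWT j w hw.1, by rw [hT k j, hw.2, map_smul]⟩
    exact ⟨c, fun w hw => ((hmem w).1 (h2 ▸ hw)).2⟩
  choose z hz using hz
  obtain ⟨v, hv, hv0⟩ := Submodule.exists_mem_ne_zero_of_ne_bot hW0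
  exact ⟨v, hv0, z, fun k => hz k v hv⟩

end Pool.Agent.U598.GR
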