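import Pool.Agent.U598.GR.Green
import Pool.Agent.U598.GR.Joint

/-!
Gorenstein quotients of polynomial rings: small values of the Hilbert function give zeros.
-/

set_option autoImplicit false

open MvPolynomial

namespace Pool.Agent.U598.GR

variable {K : Type} [Field K] {n : ℕ}

/-- the form `f` is orthogonal to the forms of degree `t` -/
def In (lam : MvPolynomial (Fin n) K →ₗ[K] K) (t : ℕ) (f : MvPolynomial (Fin n) K) : Prop :=
  ∀ g : MvPolynomial (Fin n) K, g.IsHomogeneous t → lam (f * g) = 0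

/-- the pairing of the forms of degrees `i` and `j` -/
noncomputable def Bil (lam : MvPolynomial (Fin n) K →ₗ[K] K) (i j : ℕ) :
    homogeneousSubmodule (Fin n) K i →ₗ[K] homogeneousSubmodule (Fin n) K j →ₗ[K] K :=
  LinearMap.mk₂ K (fun f g => lam (f.1 * g.1))
    (fun f f' g => by rw [Submodule.coe_add, add_mul, map_add])
    (fun c f g => by rw [Submodule.coe_smul, smul_mul_assoc, map_smul])
    (fun f g g' => by rw [Submodule.coe_add, mul_add, map_add])
    (fun c f g => by rw [Submodule.coe_smul, mul_smul_comm, map_smul])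

theorem Bil_apply (lam : MvPolynomial (Fin n) K →ₗ[K] K) (i j : ℕ)
    (f : homogeneousSubmodule (Fin n) K i) (g : homogeneousSubmodule (Fin n) K j) :
    Bil lam i j f g = lam (f.1 * g.1) := rfl

theorem mem_ker_Bil (lam : MvPolynomial (Fin n) K →ₗ[K] K) (i j : ℕ)
    (f : homogeneousSubmodule (Fin n) K i) : f ∈ LinearMap.ker (Bil lam i j) ↔ In lam j f.1 := by
  rw [LinearMap.mem_ker]
  constructor
  · intro h g hg
    have h1 := LinearMap.congr_fun h ⟨g, hg⟩
    exact h1
  · intro h
    ext g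
    exact h g.1 g.2

/-- the rank of the pairing -/
noncomputable def rk (lam : MvPolynomial (Fin n) K →ₗ[K] K) (i j : ℕ) : ℕ :=
  Module.finrank K (LinearMap.range (Bil lam i j))

theorem rk_symm (lam : MvPolynomial (Fin n) K →ₗ[K] K) (i j : ℕ) : rk lam i j = rk lam j i := by
  unfold rk
  rw [← LinearMap.finrank_range_dualMap_eq_finrank_range (Bil lam i j)]
  have h1 : Bil lam j i = (Bil lam i j).dualMap ∘ₗ
      (Module.evalEquiv K (homogeneousSubmodule (Fin n) K j)).toLinearMap := by
    ext g f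
    rw [Bil_apply, mul_comm]
    rfl
  rw [h1, LinearMap.range_comp_of_range_eq_top]
  exact LinearEquiv.range _

theorem rk_add (lam : MvPolynomial (Fin n) K →ₗ[K] K) (i j : ℕ) :
    rk lam i j + Module.finrank K (LinearMap.ker (Bil lam i j)) =
      Module.finrank K (homogeneousSubmodule (Fin n) K i) :=
  LinearMap.finrank_range_add_finrank_ker _

theorem In.mul {lam : MvPolynomial (Fin n) K →ₗ[K] K} {t d : ℕ} {f g : MvPolynomial (Fin n) K}
    (hf : In lam (t + d) f) (hg : g.IsHomogeneous d) : In lam t (g * f) := by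
  intro h hh
  have h1 := hf (g * h) (by
    have := hg.mul hh
    rwa [add_comm] at this)
  rw [← h1]
  congr 1
  ring

theorem In.add {lam : MvPolynomial (Fin n) K →ₗ[K] K} {t : ℕ} {f g : MvPolynomial (Fin n) K}
    (hf : In lam t f) (hg : In lam t g) : In lam t (f + g) := by
  intro h hh
  rw [add_mul, map_add, hf h hh, hg h hh, add_zero]

theorem In.smul {lam : MvPolynomial (Fin n) K →ₗ[K] K} {t : ℕ} {f : MvPolynomial (Fin n) K}
    (c : K) (hf : In lam t f) : In lam t (C c * f) := by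
  intro h hh
  have h1 : C c * f * h = c • (f * h) := by rw [smul_eq_C_mul]; ring
  rw [h1, map_smul, hf h hh, smul_zero]

theorem In.neg {lam : MvPolynomial (Fin n) K →ₗ[K] K} {t : ℕ} {f : MvPolynomial (Fin n) K}
    (hf : In lam t f) : In lam t (-f) := by
  intro h hh
  rw [neg_mul, map_neg, hf h hh, neg_zero]

theorem In.sub {lam : MvPolynomial (Fin n) K →ₗ[K] K} {t : ℕ} {f g : MvPolynomial (Fin n) K}
    (hf : In lam t f) (hg : In lam t g) : In lam t (f - g) := by
  rw [sub_eq_add_neg]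
  exact hf.add hg.neg

theorem In.zero {lam : MvPolynomial (Fin n) K →ₗ[K] K} {t : ℕ} :
    In lam t (0 : MvPolynomial (Fin n) K) := by
  intro h hh
  rw [zero_mul, map_zero]

theorem nondeg : ∀ (a : ℕ) {b : ℕ} (lam : MvPolynomial (Fin n) K →ₗ[K] K),
    (∀ f : MvPolynomial (Fin n) K, f.IsHomogeneous a → In lam b f) →
    ∀ f : MvPolynomial (Fin n) K, f.IsHomogeneous (a + b) → lam f = 0 := by
  intro a
  induction a with
  | zero =>
    intro b lam h f hf
    have h1 := h 1 (isHomogeneous_one _ _) f (by rwa [zero_add] at hf)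
    rwa [one_mul] at h1
  | succ a ih =>
    intro b lam h f hf
    rw [show a + 1 + b = (a + b) + 1 by ring] at hf
    have h1 : f ∈ LinearMap.ker lam := by
      refine hom_succ hf fun k g hg => ?_
      rw [LinearMap.mem_ker]
      have h2 := ih (b := b) (lam ∘ₗ LinearMap.mulLeft K (X k)) (fun f' hf' g' hg' => by
        rw [LinearMap.comp_apply, LinearMap.mulLeft_apply, ← mul_assoc]
        exact h (X k * f') (by
          have := (isHomogeneous_X K k).mul hf'
          rwa [add_comm] at this) g' hg') g hg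
      exact h2
    exact LinearMap.mem_ker.1 h1

/-- the submodule of forms which are multiples of the linear form modulo the radical -/
theorem step {lam : MvPolynomial (Fin n) K →ₗ[K] K} {ℓ : Fin n → K} {j t : ℕ}
    (h : ∀ f : MvPolynomial (Fin n) K, f.IsHomogeneous (j + 1) →
      ∃ g : MvPolynomial (Fin n) K, g.IsHomogeneous j ∧ In lam (t + 1) (f - lin ℓ * g)) :
    ∀ f : MvPolynomial (Fin n) K, f.IsHomogeneous (j + 2) →
      ∃ g : MvPolynomial (Fin n) K, g.IsHomogeneous (j + 1) ∧ In lam t (f - lin ℓ * g) := by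
  intro f hf
  obtain ⟨W, hW⟩ : ∃ W : Submodule K (MvPolynomial (Fin n) K), ∀ f, f ∈ W ↔
      ∃ g : MvPolynomial (Fin n) K, g.IsHomogeneous (j + 1) ∧ In lam t (f - lin ℓ * g) := by
    refine ⟨{ carrier := {f | ∃ g : MvPolynomial (Fin n) K, g.IsHomogeneous (j + 1) ∧
                In lam t (f - lin ℓ * g)}
              add_mem' := ?_
              zero_mem' := ?_
              smul_mem' := ?_ }, fun f => Iff.rfl⟩
    · rintro a b ⟨g, hg, h1⟩ ⟨g', hg', h2⟩
      refine ⟨g + g', hg.add hg', ?_⟩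
      have h3 : a + b - lin ℓ * (g + g') = (a - lin ℓ * g) + (b - lin ℓ * g') := by ring
      rw [h3]
      exact h1.add h2
    · refine ⟨0, isHomogeneous_zero _ _ _, ?_⟩
      rw [mul_zero, sub_zero]
      exact In.zero
    · rintro c a ⟨g, hg, h1⟩
      refine ⟨C c * g, ?_, ?_⟩
      · have := (isHomogeneous_C (Fin n) c).mul hg
        rwa [zero_add] at this
      · have h3 : c • a - lin ℓ * (C c * g) = C c * (a - lin ℓ * g) := by
          rw [smul_eq_C_mul]
          ring
        rw [h3]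
        exact h1.smul c
  have h1 : f ∈ W := by
    refine hom_succ hf fun k g hg => ?_
    obtain ⟨g', hg', h2⟩ := h g hg
    rw [hW]
    refine ⟨X k * g', ?_, ?_⟩
    · have := (isHomogeneous_X K k).mul hg'
      rwa [add_comm] at this
    · have h3 : X k * g - lin ℓ * (X k * g') = X k * (g - lin ℓ * g') := by ring
      rw [h3]
      exact In.mul h2 (isHomogeneous_X K k)
  exact (hW f).1 h1

/-- a small value of the Hilbert function: the general linear form generates the next pieces -/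
theorem gen [Infinite K] {lam : MvPolynomial (Fin n) K →ₗ[K] K} {p r : ℕ}
    (h : rk lam (p + 1) r ≤ p + 1) : ∃ ℓ : Fin n → K, ∀ k t : ℕ, k + t = r →
      ∀ f : MvPolynomial (Fin n) K, f.IsHomogeneous (p + k + 1) →
        ∃ g : MvPolynomial (Fin n) K, g.IsHomogeneous (p + k) ∧ In lam t (f - lin ℓ * g) := by
  obtain ⟨Q, hQ0, hQ⟩ := green (p + 1) (LinearMap.ker (Bil lam (p + 1) r)) (by
    have := rk_add lam (p + 1) r
    omega)
  obtain ⟨ℓ, hℓ⟩ : ∃ ℓ : Fin n → K, eval ℓ Q ≠ 0 := by
    by_contra hcon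
    push Not at hcon
    exact hQ0 (funext fun x => by rw [hcon, map_zero])
  refine ⟨ℓ, fun k => ?_⟩
  induction k with
  | zero =>
    intro t ht f hf
    rw [zero_add] at ht
    subst ht
    obtain ⟨v, hv, g, hg, -, hfg⟩ := hQ ℓ hℓ ⟨f, hf⟩
    refine ⟨g, hg (Nat.succ_pos _), ?_⟩
    have h1 : f - lin ℓ * g = v.1 := by
      have : f = v.1 + lin ℓ * g := hfg
      rw [this]
      ring
    rw [h1]
    exact (mem_ker_Bil _ _ _ _).1 hv
  | succ k ih =>
    intro t ht
    exact step (ih (t + 1) (by omega))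

theorem inj {lam : MvPolynomial (Fin n) K →ₗ[K] K} {ℓ : Fin n → K} {j t : ℕ}
    (h : ∀ f : MvPolynomial (Fin n) K, f.IsHomogeneous (t + 1) →
      ∃ g : MvPolynomial (Fin n) K, g.IsHomogeneous t ∧ In lam j (f - lin ℓ * g))
    {f : MvPolynomial (Fin n) K} (hf : f.IsHomogeneous j) (hfl : In lam t (lin ℓ * f)) :
    In lam (t + 1) f := by
  intro g hg
  obtain ⟨g', hg', h1⟩ := h g hg
  have h2 := h1 f hf
  have h3 := hfl g' hg'
  have h4 : f * g = (g - lin ℓ * g') * f + lin ℓ * f * g' := by ring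
  rw [h4, map_add, h2, h3, add_zero]

/-- the map of the quotients induced by a linear form -/
noncomputable def mulQ (lam : MvPolynomial (Fin n) K →ₗ[K] K) (p t : ℕ)
    (g : MvPolynomial (Fin n) K) (hg : g.IsHomogeneous 1) :
    (homogeneousSubmodule (Fin n) K p ⧸ LinearMap.ker (Bil lam p (t + 1))) →ₗ[K]
      (homogeneousSubmodule (Fin n) K (p + 1) ⧸ LinearMap.ker (Bil lam (p + 1) t)) :=
  Submodule.mapQ _ _ (mulH g hg) (by
    intro f hf
    rw [Submodule.mem_comap, mem_ker_Bil, mulH_coe]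
    exact In.mul ((mem_ker_Bil _ _ _ _).1 hf) hg)

theorem mulQ_mk (lam : MvPolynomial (Fin n) K →ₗ[K] K) (p t : ℕ)
    (g : MvPolynomial (Fin n) K) (hg : g.IsHomogeneous 1) (f : homogeneousSubmodule (Fin n) K p) :
    mulQ lam p t g hg (Submodule.Quotient.mk f) = Submodule.Quotient.mk (mulH g hg f) := rfl

theorem mulQ_bij {lam : MvPolynomial (Fin n) K →ₗ[K] K} {p t : ℕ} {ℓ : Fin n → K} (hpt : p ≤ t)
    (h : ∀ k t' : ℕ, k + t' = t → ∀ f : MvPolynomial (Fin n) K, f.IsHomogeneous (p + k + 1) →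
        ∃ g : MvPolynomial (Fin n) K, g.IsHomogeneous (p + k) ∧ In lam t' (f - lin ℓ * g)) :
    Function.Bijective (mulQ lam p t (lin ℓ) (lin_hom ℓ)) := by
  constructor
  · rw [← LinearMap.ker_eq_bot, LinearMap.ker_eq_bot']
    intro v hv
    obtain ⟨f, rfl⟩ := Submodule.Quotient.mk_surjective _ v
    rw [mulQ_mk, Submodule.Quotient.mk_eq_zero, mem_ker_Bil, mulH_coe] at hv
    rw [Submodule.Quotient.mk_eq_zero, mem_ker_Bil]
    refine inj (j := p) (t := t) ?_ f.2 hv
    have h1 := h (t - p) p (by omega)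
    rwa [show p + (t - p) = t by omega] at h1
  · intro v
    obtain ⟨f, rfl⟩ := Submodule.Quotient.mk_surjective _ v
    obtain ⟨g, hg, h1⟩ := h 0 t (zero_add t) f.1 f.2
    refine ⟨Submodule.Quotient.mk ⟨g, hg⟩, ?_⟩
    rw [mulQ_mk, Submodule.Quotient.eq, mem_ker_Bil]
    have h2 : ((mulH (lin ℓ) (lin_hom ℓ) ⟨g, hg⟩ - f : homogeneousSubmodule (Fin n) K (p + 1)) :
        MvPolynomial (Fin n) K) = - (f.1 - lin ℓ * g) := by
      rw [Submodule.coe_sub, mulH_coe]
      ring
    rw [h2]
    exact h1.neg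

theorem rk_eq {lam : MvPolynomial (Fin n) K →ₗ[K] K} {p t : ℕ} {ℓ : Fin n → K} (hpt : p ≤ t)
    (h : ∀ k t' : ℕ, k + t' = t → ∀ f : MvPolynomial (Fin n) K, f.IsHomogeneous (p + k + 1) →
        ∃ g : MvPolynomial (Fin n) K, g.IsHomogeneous (p + k) ∧ In lam t' (f - lin ℓ * g)) :
    rk lam p (t + 1) = rk lam (p + 1) t := by
  have h1 := LinearEquiv.finrank_eq (LinearEquiv.ofBijective _ (mulQ_bij hpt h))
  have h2 := Submodule.finrank_quotient_add_finrank (LinearMap.ker (Bil lam p (t + 1)))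
  have h3 := Submodule.finrank_quotient_add_finrank (LinearMap.ker (Bil lam (p + 1) t))
  have h4 := rk_add lam p (t + 1)
  have h5 := rk_add lam (p + 1) t
  omega

end Pool.Agent.U598.GR
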