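import Mathlib

/-!
Restriction of spaces of forms of small codimension to a general hyperplane.
-/

set_option autoImplicit false

open MvPolynomial

namespace Pool.Agent.U598.GR

variable {K : Type} [Field K] {n : ℕ}

/-- surjectivity is an open condition -/
theorem open_surj {E F : Type} [AddCommGroup E] [Module K E] [AddCommGroup F] [Module K F]
    [FiniteDimensional K F] (φ : Fin n → (E →ₗ[K] F)) (ℓ₀ : Fin n → K)
    (h₀ : Function.Surjective (∑ k, ℓ₀ k • φ k : E →ₗ[K] F)) :
    ∃ Q : MvPolynomial (Fin n) K, Q ≠ 0 ∧ ∀ ℓ : Fin n → K, eval ℓ Q ≠ 0 →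
      Function.Surjective (∑ k, ℓ k • φ k : E →ₗ[K] F) := by
  classical
  obtain ⟨σ, hσ⟩ := (∑ k, ℓ₀ k • φ k).exists_rightInverse_of_surjective (LinearMap.range_eq_top.2 h₀)
  obtain ⟨b⟩ : Nonempty (Module.Basis (Fin (Module.finrank K F)) K F) := ⟨Module.finBasis K F⟩
  obtain ⟨M, hM⟩ : ∃ M : Fin n → Matrix (Fin (Module.finrank K F)) (Fin (Module.finrank K F)) K,
      ∀ k, M k = LinearMap.toMatrix b b (φ k ∘ₗ σ) := ⟨_, fun _ => rfl⟩
  obtain ⟨Q, hQ⟩ : ∃ Q : MvPolynomial (Fin n) K, Q = Matrix.det (∑ k, (X k : MvPolynomial (Fin n) K) •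
      ((M k).map (C : K →+* MvPolynomial (Fin n) K))) := ⟨_, rfl⟩
  have hev : ∀ ℓ : Fin n → K, eval ℓ Q = LinearMap.det ((∑ k, ℓ k • φ k) ∘ₗ σ) := by
    intro ℓ
    rw [hQ, RingHom.map_det, ← LinearMap.det_toMatrix b]
    congr 1
    have h1 : (∑ k, ℓ k • φ k) ∘ₗ σ = ∑ k, ℓ k • (φ k ∘ₗ σ) := by
      ext x
      simp
    rw [h1, map_sum]
    ext i j
    simp only [RingHom.mapMatrix_apply, Matrix.map_apply, Matrix.sum_apply, Matrix.smul_apply,
      smul_eq_mul, map_sum, map_mul, eval_X, eval_C, map_smul, hM]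
  refine ⟨Q, fun h0 => ?_, fun ℓ hℓ => ?_⟩
  · have h1 := hev ℓ₀
    rw [h0, map_zero, hσ, LinearMap.det_id] at h1
    exact zero_ne_one h1
  · rw [hev] at hℓ
    have h1 : IsUnit ((∑ k, ℓ k • φ k) ∘ₗ σ) :=
      (LinearMap.isUnit_iff_isUnit_det _).2 (isUnit_iff_ne_zero.2 hℓ)
    have h2 := ((Module.End.isUnit_iff _).1 h1).2
    intro y
    obtain ⟨x, hx⟩ := h2 y
    exact ⟨σ x, hx⟩

/-- the linear form -/
noncomputable def lin (ℓ : Fin n → K) : MvPolynomial (Fin n) K := ∑ k, C (ℓ k) * X k

theorem lin_hom (ℓ : Fin n → K) : (lin ℓ).IsHomogeneous 1 :=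
  IsHomogeneous.sum _ _ _ fun _ _ => isHomogeneous_C_mul_X _ _

instance fin_hom (i : ℕ) : FiniteDimensional K (homogeneousSubmodule (Fin n) K i) := by
  have h : (homogeneousSubmodule (Fin n) K i) ≤ restrictTotalDegree (Fin n) K i := by
    intro f hf
    rw [mem_restrictTotalDegree]
    exact IsHomogeneous.totalDegree_le hf
  exact Submodule.finiteDimensional_of_le h

/-- a form of positive degree is a combination of multiples of the variables -/
theorem hom_succ {i : ℕ} {f : MvPolynomial (Fin n) K} (hf : f.IsHomogeneous (i + 1))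
    {W : Submodule K (MvPolynomial (Fin n) K)}
    (hW : ∀ k, ∀ g : MvPolynomial (Fin n) K, g.IsHomogeneous i → X k * g ∈ W) : f ∈ W := by
  classical
  rw [f.as_sum]
  refine W.sum_mem fun d hd => ?_
  have h1 := hf (mem_support_iff.1 hd)
  have h2 : ∃ k, d k ≠ 0 := by
    by_contra hcon
    push Not at hcon
    have h3 : d = 0 := Finsupp.ext hcon
    rw [h3] at h1
    simp at h1
  obtain ⟨k, hk⟩ := h2
  have h3 : monomial d (coeff d f) = X k * monomial (d - Finsupp.single k 1) (coeff d f) := by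
    rw [X, monomial_mul, one_mul]
    congr 1
    rw [add_comm, tsub_add_cancel_of_le]
    rw [Finsupp.single_le_iff]
    omega
  rw [h3]
  refine hW k _ (isHomogeneous_monomial _ ?_)
  have h4 : (d - Finsupp.single k 1) + Finsupp.single k 1 = d := by
    rw [tsub_add_cancel_of_le]
    rw [Finsupp.single_le_iff]
    omega
  have h5 := congrArg Finsupp.degree h4
  rw [map_add, Finsupp.degree_single] at h5
  have h6 : Finsupp.degree d = i + 1 := by
    rw [← h1, Finsupp.degree_eq_weight_one]
    rfl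
  omega

/-- multiplication by a form of degree one -/
noncomputable def mulH {i : ℕ} (g : MvPolynomial (Fin n) K) (hg : g.IsHomogeneous 1) :
    homogeneousSubmodule (Fin n) K i →ₗ[K] homogeneousSubmodule (Fin n) K (i + 1) :=
  LinearMap.codRestrict _ ((LinearMap.mulLeft K g).comp (Submodule.subtype _)) fun f => by
    have h := hg.mul f.2
    rw [add_comm] at h
    exact h

theorem mulH_coe {i : ℕ} (g : MvPolynomial (Fin n) K) (hg : g.IsHomogeneous 1)
    (f : homogeneousSubmodule (Fin n) K i) : (mulH g hg f : MvPolynomial (Fin n) K) = g * f := rfl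

/-- **Restriction to a general hyperplane** (a special case of a theorem of Green). -/
theorem green [Infinite K] : ∀ (i : ℕ) (V : Submodule K (homogeneousSubmodule (Fin n) K i)),
    Module.finrank K (homogeneousSubmodule (Fin n) K i) ≤ Module.finrank K V + i →
    ∃ Q : MvPolynomial (Fin n) K, Q ≠ 0 ∧ ∀ ℓ : Fin n → K, eval ℓ Q ≠ 0 →
      ∀ f : homogeneousSubmodule (Fin n) K i, ∃ v ∈ V, ∃ g : MvPolynomial (Fin n) K,
        (0 < i → g.IsHomogeneous (i - 1)) ∧ (i = 0 → g = 0) ∧
        (f : MvPolynomial (Fin n) K) = v + lin ℓ * g := by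
  classical
  intro i
  induction i with
  | zero =>
    intro V hV
    have h1 : V = ⊤ := Submodule.eq_top_of_finrank_eq (le_antisymm (Submodule.finrank_le V) (by omega))
    refine ⟨1, one_ne_zero, fun ℓ _ f => ⟨f, by rw [h1]; trivial, 0, fun h => absurd h (by omega),
      fun _ => rfl, by rw [mul_zero, add_zero]⟩⟩
  | succ i ih =>
    intro V hV
    obtain ⟨φ, hφ⟩ : ∃ φ : Fin n → (homogeneousSubmodule (Fin n) K i →ₗ[K]
        (homogeneousSubmodule (Fin n) K (i + 1) ⧸ V)), ∀ k, φ k =
          V.mkQ ∘ₗ mulH (X k) (isHomogeneous_X K k) := ⟨_, fun _ => rfl⟩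
    have hφℓ : ∀ (ℓ : Fin n → K) g, (∑ k, ℓ k • φ k) g = V.mkQ (mulH (lin ℓ) (lin_hom ℓ) g) := by
      intro ℓ g
      have h1 : mulH (lin ℓ) (lin_hom ℓ) g = ∑ k, ℓ k • mulH (X k) (isHomogeneous_X K k) g := by
        apply Subtype.ext
        rw [mulH_coe]
        simp only [AddSubmonoidClass.coe_finsetSum, Submodule.coe_smul, mulH_coe]
        unfold lin
        rw [Finset.sum_mul]
        refine Finset.sum_congr rfl fun k _ => ?_
        rw [smul_eq_C_mul, mul_assoc]
      rw [h1, map_sum, LinearMap.sum_apply]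
      refine Finset.sum_congr rfl fun k _ => ?_
      rw [hφ, map_smul]
      rfl
    have key : ∀ ℓ : Fin n → K, Function.Surjective (∑ k, ℓ k • φ k : _ →ₗ[K] _) →
        ∀ f : homogeneousSubmodule (Fin n) K (i + 1), ∃ v ∈ V, ∃ g : MvPolynomial (Fin n) K,
        (0 < i + 1 → g.IsHomogeneous (i + 1 - 1)) ∧ (i + 1 = 0 → g = 0) ∧
        (f : MvPolynomial (Fin n) K) = v + lin ℓ * g := by
      intro ℓ hℓ f
      obtain ⟨g, hg⟩ := hℓ (V.mkQ f)
      rw [hφℓ] at hg
      have h1 : f - mulH (lin ℓ) (lin_hom ℓ) g ∈ V := by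
        rw [← Submodule.Quotient.mk_eq_zero, Submodule.Quotient.mk_sub, sub_eq_zero]
        exact hg.symm
      refine ⟨_, h1, g, fun _ => ?_, fun h => absurd h (by omega), ?_⟩
      · exact g.2
      · rw [Submodule.coe_sub, mulH_coe]
        ring
    by_cases hc : ∃ ℓ₀ : Fin n → K, Function.Surjective (∑ k, ℓ₀ k • φ k : _ →ₗ[K] _)
    · obtain ⟨ℓ₀, h₀⟩ := hc
      obtain ⟨Q, hQ, h⟩ := open_surj φ ℓ₀ h₀
      exact ⟨Q, hQ, fun ℓ hℓ => key ℓ (h ℓ hℓ)⟩
    · exfalso
      push Not at hc
      -- the colon spaces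
      have hcodim : ∀ k, Module.finrank K (homogeneousSubmodule (Fin n) K i) ≤
          Module.finrank K (LinearMap.ker (φ k)) + i := by
        intro k
        have h1 := (φ k).finrank_range_add_finrank_ker
        have h2 : Module.finrank K (LinearMap.range (φ k)) < Module.finrank K
            (homogeneousSubmodule (Fin n) K (i + 1) ⧸ V) := by
          apply Submodule.finrank_lt
          intro htop
          apply hc (Pi.single k 1)
          have h3 : (∑ k', (Pi.single k 1 : Fin n → K) k' • φ k' : _ →ₗ[K] _) = φ k := by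
            rw [Finset.sum_eq_single k]
            · rw [Pi.single_eq_same, one_smul]
            · intro j _ hj
              rw [Pi.single_eq_of_ne hj, zero_smul]
            · intro h
              exact absurd (Finset.mem_univ _) h
          rw [h3]
          exact LinearMap.range_eq_top.1 htop
        have h3 := V.finrank_quotient_add_finrank
        omega
      choose Q hQ0 hQ using fun k => ih _ (hcodim k)
      obtain ⟨ℓ, hℓ⟩ : ∃ ℓ : Fin n → K, eval ℓ (∏ k, Q k) ≠ 0 := by
        by_contra hcon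
        push Not at hcon
        have h1 : (∏ k, Q k) = 0 := MvPolynomial.funext fun ℓ => by rw [hcon, map_zero]
        rw [Finset.prod_eq_zero_iff] at h1
        obtain ⟨k, -, hk⟩ := h1
        exact hQ0 k hk
      rw [map_prod, Finset.prod_ne_zero_iff] at hℓ
      apply hc ℓ
      intro y
      obtain ⟨f, rfl⟩ := V.mkQ_surjective y
      obtain ⟨W, hW⟩ : ∃ W : Submodule K (MvPolynomial (Fin n) K), W =
          ((LinearMap.range (∑ k, ℓ k • φ k : _ →ₗ[K] _)).comap V.mkQ).map
            (Submodule.subtype _) := ⟨_, rfl⟩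
      have h1 : (f : MvPolynomial (Fin n) K) ∈ W := by
        refine hom_succ f.2 fun k g hg => ?_
        obtain ⟨v, hv, g', hg1, hg2, hgv⟩ := hQ k ℓ (hℓ k (Finset.mem_univ k)) ⟨g, hg⟩
        rw [hW]
        refine ⟨mulH (X k) (isHomogeneous_X K k) ⟨g, hg⟩, ?_, rfl⟩
        have h2 : V.mkQ (mulH (X k) (isHomogeneous_X K k) ⟨g, hg⟩) = φ k ⟨g, hg⟩ := by
          rw [hφ]
          rfl
        change V.mkQ (mulH (X k) (isHomogeneous_X K k) ⟨g, hg⟩) ∈
          LinearMap.range (∑ k, ℓ k • φ k : _ →ₗ[K] _)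
        rw [h2]
        rcases Nat.eq_zero_or_pos i with h0 | h0
        · have h3 : (⟨g, hg⟩ : homogeneousSubmodule (Fin n) K i) = v := by
            apply Subtype.ext
            rw [hgv, hg2 h0, mul_zero, add_zero]
          rw [h3, LinearMap.mem_ker.1 hv]
          exact Submodule.zero_mem _
        · have hg'' := hg1 h0
          have h4 : (lin ℓ * g').IsHomogeneous i := by
            have h5 := (lin_hom ℓ).mul hg''
            rwa [show 1 + (i - 1) = i by omega] at h5
          have h3 : (⟨g, hg⟩ : homogeneousSubmodule (Fin n) K i) = v + ⟨lin ℓ * g', h4⟩ := by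
            apply Subtype.ext
            exact hgv
          rw [h3, map_add, LinearMap.mem_ker.1 hv, zero_add]
          have h6 : (X k * g').IsHomogeneous i := by
            have h5 := (isHomogeneous_X K k).mul hg''
            rwa [show 1 + (i - 1) = i by omega] at h5
          refine ⟨⟨X k * g', h6⟩, ?_⟩
          rw [hφℓ, hφ]
          change V.mkQ _ = V.mkQ _
          congr 1
          apply Subtype.ext
          change lin ℓ * (X k * g') = X k * (lin ℓ * g')
          ring
      rw [hW] at h1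
      obtain ⟨f', hf', hff⟩ := h1
      have h2 : f' = f := Subtype.ext hff
      rw [← h2]
      exact hf'

end Pool.Agent.U598.GR
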