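import Pool.Agent.U598.GR.Sch

/-!
The degree bound for saturated ideals which contain forms with finitely many common zeros.
-/

set_option autoImplicit false

open MvPolynomial

namespace Pool.Agent.U598.GR

variable {K : Type} [Field K] {n : ℕ}

/-- the homogeneous part -/
noncomputable def prj (s : ℕ) : MvPolynomial (Fin n) K →ₗ[K] homogeneousSubmodule (Fin n) K s :=
  LinearMap.codRestrict _ (homogeneousComponent s) fun f => homogeneousComponent_isHomogeneous s f

theorem prj_of {s : ℕ} {f : MvPolynomial (Fin n) K} (hf : f.IsHomogeneous s) :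
    prj s f = ⟨f, hf⟩ := by
  apply Subtype.ext
  change homogeneousComponent s f = f
  rw [homogeneousComponent_of_mem hf, if_pos rfl]

theorem degree_bound [IsAlgClosed K] {a m e : ℕ} (ha : 1 ≤ a) (hm : m + 2 = a + e)
    (he : e + 1 ≤ a) {κ : Type} (F : κ → MvPolynomial (Fin n) K) (d : κ → ℕ)
    (hF : ∀ i, (F i).IsHomogeneous (d i)) (hd : ∀ i, d i ≤ a)
    (hfin : ∀ j, {x : Fin n → K | x j = 1 ∧ ∀ i, eval x (F i) = 0}.Finite)
    (J : Ideal (MvPolynomial (Fin n) K))
    (hsat : ∀ f : MvPolynomial (Fin n) K, (∃ N : ℕ, ∀ i : Fin n, X i ^ N * f ∈ J) → f ∈ J)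
    (hFJ : ∀ i, F i ∈ J) (h : ℕ → ℕ)
    (hh : ∀ j, h j = Module.finrank K (homogeneousSubmodule (Fin n) K j) -
      Module.finrank K ↥(Submodule.restrictScalars K J ⊓ homogeneousSubmodule (Fin n) K j))
    (D : ℕ) (hD : ∃ N : ℕ, ∀ j ≥ N, h j = D) (hmD : h m < D) : (e + 1) * a ≤ D := by
  classical
  obtain ⟨ℓ, hℓ⟩ := exists_lin F d hF hfin
  have hreg := regular F J hsat hFJ ℓ hℓ
  have hh' : ∀ j, h j = Module.finrank K (homogeneousSubmodule (Fin n) K j) -
      Module.finrank K (Jc J j) := by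
    intro j
    rw [hh, finrank_Jc]
  have hle : ∀ j, Module.finrank K (Jc J j) ≤ Module.finrank K (homogeneousSubmodule (Fin n) K j) :=
    fun j => Submodule.finrank_le _
  have hq0 : lin ℓ ≠ 0 := by
    intro h0
    obtain ⟨N, hN⟩ := hD
    have h1 : h N = 0 := by
      rw [hh']
      have h2 : Jc J N = ⊤ := by
        rw [eq_top_iff]
        intro f _
        rw [mem_Jc]
        apply hreg
        rw [h0, zero_mul]
        exact J.zero_mem
      rw [h2, finrank_top, Nat.sub_self]
    have h2 := hN N le_rfl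
    omega
  have hV := finrank_V J (lin ℓ) (lin_hom ℓ) hq0 hreg
  obtain ⟨V, hVd⟩ : ∃ V : ∀ j, Submodule K (homogeneousSubmodule (Fin n) K (j + 1)),
      ∀ j, V j = Jc J (j + 1) ⊔ LinearMap.range (mulH (i := j) (lin ℓ) (lin_hom ℓ)) :=
    ⟨_, fun _ => rfl⟩
  have hV' : ∀ j, Module.finrank K (V j) + Module.finrank K (Jc J j) =
      Module.finrank K (Jc J (j + 1)) + Module.finrank K (homogeneousSubmodule (Fin n) K j) := by
    intro j
    rw [hVd]
    exact hV j
  have hVle : ∀ j, Module.finrank K (V j) ≤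
      Module.finrank K (homogeneousSubmodule (Fin n) K (j + 1)) := fun j => Submodule.finrank_le _
  have hmono : Monotone h := by
    refine monotone_nat_of_le_succ fun j => ?_
    have h1 := hV' j
    have h2 := hVle j
    have h3 := hle j
    have h4 := hle (j + 1)
    rw [hh', hh']
    omega
  -- the degree of the relation
  obtain ⟨s, hs, hlt⟩ : ∃ s, m ≤ s ∧ h s < h (s + 1) := by
    by_contra hcon
    push Not at hcon
    have h1 : ∀ j, h (m + j) ≤ h m := by
      intro j
      induction j with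
      | zero => exact le_rfl
      | succ j ih => exact (hcon (m + j) (Nat.le_add_right _ _)).trans ih
    obtain ⟨N, hN⟩ := hD
    have h2 := hN (m + N) (Nat.le_add_left _ _)
    have h3 := h1 N
    omega
  obtain ⟨φ, hφ0, hφ⟩ : ∃ φ : homogeneousSubmodule (Fin n) K (s + 1) →ₗ[K] K, φ ≠ 0 ∧
      V s ≤ LinearMap.ker φ := by
    refine Submodule.exists_le_ker_of_lt_top _ (lt_top_iff_ne_top.2 fun htop => ?_)
    have h1 := hV' s
    rw [htop, finrank_top] at h1
    have h2 := hle s
    have h3 := hle (s + 1)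
    rw [hh', hh'] at hlt
    omega
  obtain ⟨lam, hlamd⟩ : ∃ lam : MvPolynomial (Fin n) K →ₗ[K] K, lam = φ ∘ₗ prj (s + 1) :=
    ⟨_, rfl⟩
  have hlam : ∀ (f : MvPolynomial (Fin n) K) (hf : f.IsHomogeneous (s + 1)), lam f = φ ⟨f, hf⟩ := by
    intro f hf
    rw [hlamd, LinearMap.comp_apply, prj_of hf]
  have hlam0 : ∃ f : MvPolynomial (Fin n) K, f.IsHomogeneous (s + 1) ∧ lam f ≠ 0 := by
    by_contra hcon
    push Not at hcon
    refine hφ0 (LinearMap.ext fun f => ?_)
    rw [LinearMap.zero_apply, ← hcon f.1 f.2, hlam f.1 f.2]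
  have hIJ : ∀ d u : ℕ, d + u = s + 1 → ∀ f : MvPolynomial (Fin n) K, f.IsHomogeneous d → f ∈ J →
      In lam u f := by
    intro d u hdu f hf hfJ g hg
    have h1 := hf.mul hg
    rw [hdu] at h1
    rw [hlam _ h1]
    refine LinearMap.mem_ker.1 (hφ ?_)
    rw [hVd]
    refine Submodule.mem_sup_left ?_
    rw [mem_Jc]
    exact J.mul_mem_right _ hfJ
  have hIq : ∀ d u : ℕ, d + 1 + u = s + 1 → ∀ f : MvPolynomial (Fin n) K, f.IsHomogeneous d →
      In lam u (lin ℓ * f) := by
    intro d u hdu f hf g hg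
    have h0 : (f * g).IsHomogeneous s := by
      have := hf.mul hg
      rwa [show d + u = s by omega] at this
    have h1 : (lin ℓ * f * g).IsHomogeneous (s + 1) := by
      rw [mul_assoc]
      have := (lin_hom ℓ).mul h0
      rwa [add_comm] at this
    rw [hlam _ h1]
    refine LinearMap.mem_ker.1 (hφ ?_)
    rw [hVd]
    refine Submodule.mem_sup_right ⟨⟨f * g, h0⟩, ?_⟩
    apply Subtype.ext
    exact (mul_assoc _ _ _).symm
  have hsum : ∀ k ≤ s + 1, ∑ i ∈ Finset.range (k + 1), rk lam i (s + 1 - i) ≤ h k := by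
    intro k
    induction k with
    | zero =>
      intro _
      rw [zero_add, Finset.sum_range_one, Nat.sub_zero, hh']
      have h1 := rk_add lam 0 (s + 1)
      have h2 : Module.finrank K (Jc J 0) ≤
          Module.finrank K (LinearMap.ker (Bil lam 0 (s + 1))) := by
        refine Submodule.finrank_mono fun f hf => ?_
        rw [mem_ker_Bil]
        exact hIJ 0 _ (zero_add _) f.1 f.2 hf
      omega
    | succ k ih =>
      intro hk
      rw [Finset.sum_range_succ]
      have h0 := ih (by omega)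
      have h1 := rk_add lam (k + 1) (s + 1 - (k + 1))
      have h2 : Module.finrank K (V k) ≤
          Module.finrank K (LinearMap.ker (Bil lam (k + 1) (s + 1 - (k + 1)))) := by
        refine Submodule.finrank_mono ?_
        rw [hVd, sup_le_iff]
        refine ⟨fun f hf => ?_, ?_⟩
        · rw [mem_ker_Bil]
          exact hIJ (k + 1) _ (by omega) f.1 f.2 hf
        · rintro _ ⟨f, rfl⟩
          rw [mem_ker_Bil, mulH_coe]
          exact hIq k _ (by omega) f.1 f.2
      have h3 := hV' k
      have h4 := hle k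
      have h5 := hle (k + 1)
      rw [hh'] at h0
      rw [hh']
      omega
  have hfinal := rk_sum (lam := lam) (s := s + 1) (a := a) (e := e) hlam0 (by omega) (by omega)
    (fun z hz0 => by
      by_cases hzF : ∀ i, eval z (F i) = 0
      · refine ⟨1, ha, lin ℓ, lin_hom ℓ, fun u hu => ?_, hℓ z hz0 hzF⟩
        have h1 := hIq 0 u (by omega) 1 (isHomogeneous_one _ _)
        rwa [mul_one] at h1
      · push Not at hzF
        obtain ⟨i, hi⟩ := hzF
        exact ⟨d i, hd i, F i, hF i, fun u hu => hIJ _ _ hu _ (hF i) (hFJ i), hi⟩)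
  have h1 := hsum (s + 1) le_rfl
  have h2 : h (s + 1) ≤ D := by
    obtain ⟨N, hN⟩ := hD
    rw [← hN (max N (s + 1)) (le_max_left _ _)]
    exact hmono (le_max_right _ _)
  have h3 : (e + 1) * a ≤ (e + 1) * (s + 1 + 1 - e) := Nat.mul_le_mul_left _ (by omega)
  exact h3.trans (hfinal.trans (h1.trans h2))

end Pool.Agent.U598.GR
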