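import Pool.Agent.U598.GR.Zero

/-!
Lower bounds for Hilbert functions of Gorenstein quotients.
-/

set_option autoImplicit false

open MvPolynomial

namespace Pool.Agent.U598.GR

variable {K : Type} [Field K] {n : ℕ}

theorem rk_zero {lam : MvPolynomial (Fin n) K →ₗ[K] K} {s : ℕ}
    (hlam : ∃ f : MvPolynomial (Fin n) K, f.IsHomogeneous s ∧ lam f ≠ 0) : 1 ≤ rk lam 0 s := by
  rw [Nat.one_le_iff_ne_zero]
  intro h
  unfold rk at h
  rw [Submodule.finrank_eq_zero, LinearMap.range_eq_bot] at h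
  obtain ⟨f, hf, hf0⟩ := hlam
  apply hf0
  have h1 := LinearMap.congr_fun (LinearMap.congr_fun h ⟨1, isHomogeneous_one _ _⟩) ⟨f, hf⟩
  rw [Bil_apply, one_mul] at h1
  exact h1

theorem rk_low [IsAlgClosed K] {lam : MvPolynomial (Fin n) K →ₗ[K] K} {s a e : ℕ}
    (hlam : ∃ f : MvPolynomial (Fin n) K, f.IsHomogeneous s ∧ lam f ≠ 0) (hea : e + a ≤ s + 1)
    (hz : ∀ z : Fin n → K, z ≠ 0 → ∃ d : ℕ, d ≤ a ∧ ∃ f : MvPolynomial (Fin n) K,
      f.IsHomogeneous d ∧ (∀ u, d + u = s → In lam u f) ∧ eval z f ≠ 0) :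
    ∀ i j : ℕ, i + j = s → i ≤ j → min i e + 1 ≤ rk lam i j := by
  intro i
  induction i with
  | zero =>
    intro j hj _
    rw [zero_add] at hj
    subst hj
    rw [Nat.zero_min]
    exact rk_zero hlam
  | succ p ih =>
    intro j hj hij
    by_contra hcon
    push Not at hcon
    obtain ⟨t, rfl⟩ : ∃ t, j = t + 1 := ⟨j - 1, by omega⟩
    have h1 : rk lam (p + 1) (t + 1) ≤ p + 1 := by omega
    obtain ⟨ℓ, hℓ⟩ := gen h1
    rcases Nat.lt_or_ge e (p + 1) with h2 | h2
    · have h3 := rk_eq (p := p) (t := t + 1) (by omega) hℓ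
      have h4 := ih (t + 2) (by omega) (by omega)
      rw [show t + 1 + 1 = t + 2 by ring] at h3
      rw [h3] at h4
      omega
    · obtain ⟨z, hz0, hzz⟩ := exists_zero (p := p) (t := t) (by omega) (by
        rwa [show p + 2 + t = s by omega]) hℓ
      obtain ⟨d, hd, f, hf, hfI, hf0⟩ := hz z hz0
      exact hf0 (hzz d (s - d) (by omega) (by omega) f hf (hfI _ (by omega)))

theorem sum_min (e r : ℕ) : ∑ i ∈ Finset.range (2 * e + r + 1),
    (min (min i (2 * e + r - i)) e + 1) = (e + 1) * (e + r + 1) := by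
  rw [show 2 * e + r + 1 = e + (r + 1) + e by ring, Finset.sum_range_add, Finset.sum_range_add]
  have h1 : ∀ i ∈ Finset.range e, min (min i (2 * e + r - i)) e + 1 = i + 1 := by
    intro i hi
    rw [Finset.mem_range] at hi
    omega
  have h2 : ∀ i ∈ Finset.range (r + 1),
      min (min (e + i) (2 * e + r - (e + i))) e + 1 = e + 1 := by
    intro i hi
    rw [Finset.mem_range] at hi
    omega
  have h3 : ∀ i ∈ Finset.range e, min (min (e + (r + 1) + i) (2 * e + r - (e + (r + 1) + i))) e + 1 =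
      e - i := by
    intro i hi
    rw [Finset.mem_range] at hi
    omega
  rw [Finset.sum_congr rfl h1, Finset.sum_congr rfl h2, Finset.sum_congr rfl h3,
    Finset.sum_const, Finset.card_range, smul_eq_mul]
  have h4 : ∑ i ∈ Finset.range e, (i + 1) + ∑ i ∈ Finset.range e, (e - i) = e * (e + 1) := by
    rw [← Finset.sum_add_distrib, Finset.sum_congr rfl (g := fun _ => e + 1) (fun i hi => by
      rw [Finset.mem_range] at hi
      omega), Finset.sum_const, Finset.card_range, smul_eq_mul]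
  have h5 : (e + 1) * (e + r + 1) = e * (e + 1) + (r + 1) * (e + 1) := by ring
  rw [h5, ← h4]
  ring

theorem rk_sum [IsAlgClosed K] {lam : MvPolynomial (Fin n) K →ₗ[K] K} {s a e : ℕ}
    (hlam : ∃ f : MvPolynomial (Fin n) K, f.IsHomogeneous s ∧ lam f ≠ 0) (hea : e + a ≤ s + 1)
    (hes : 2 * e ≤ s)
    (hz : ∀ z : Fin n → K, z ≠ 0 → ∃ d : ℕ, d ≤ a ∧ ∃ f : MvPolynomial (Fin n) K,
      f.IsHomogeneous d ∧ (∀ u, d + u = s → In lam u f) ∧ eval z f ≠ 0) :
    (e + 1) * (s + 1 - e) ≤ ∑ i ∈ Finset.range (s + 1), rk lam i (s - i) := by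
  obtain ⟨r, rfl⟩ : ∃ r, s = 2 * e + r := ⟨s - 2 * e, by omega⟩
  rw [show 2 * e + r + 1 - e = e + r + 1 by omega, ← sum_min]
  refine Finset.sum_le_sum fun i hi => ?_
  rw [Finset.mem_range] at hi
  rcases Nat.le_total i (2 * e + r - i) with h | h
  · rw [Nat.min_eq_left h]
    exact rk_low hlam hea hz i _ (by omega) h
  · rw [Nat.min_eq_right h, rk_symm]
    exact rk_low hlam hea hz _ i (by omega) h

end Pool.Agent.U598.GR
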