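import Pool.Agent.U598.GR.Num

/-!
Hilbert functions of saturated ideals which contain forms with finitely many common zeros.
-/

set_option autoImplicit false

open MvPolynomial

namespace Pool.Agent.U598.GR

variable {K : Type} [Field K] {n : ℕ}

/-- the forms of degree `j` in the ideal -/
noncomputable def Jc (J : Ideal (MvPolynomial (Fin n) K)) (j : ℕ) :
    Submodule K (homogeneousSubmodule (Fin n) K j) :=
  (J.restrictScalars K).comap (Submodule.subtype _)

theorem mem_Jc (J : Ideal (MvPolynomial (Fin n) K)) (j : ℕ) (f : homogeneousSubmodule (Fin n) K j) :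
    f ∈ Jc J j ↔ f.1 ∈ J := Iff.rfl

theorem finrank_Jc (J : Ideal (MvPolynomial (Fin n) K)) (j : ℕ) :
    Module.finrank K (Jc J j) =
      Module.finrank K ↥(Submodule.restrictScalars K J ⊓ homogeneousSubmodule (Fin n) K j) := by
  rw [← Submodule.finrank_map_subtype_eq, Jc, Submodule.map_comap_subtype, inf_comm]

/-- multiples of the linear form and elements of the ideal -/
theorem finrank_V (J : Ideal (MvPolynomial (Fin n) K)) (q : MvPolynomial (Fin n) K)
    (hq : q.IsHomogeneous 1) (hq0 : q ≠ 0) (hreg : ∀ f, q * f ∈ J → f ∈ J) (j : ℕ) :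
    Module.finrank K ↥(Jc J (j + 1) ⊔ LinearMap.range (mulH (i := j) q hq)) +
      Module.finrank K (Jc J j) =
    Module.finrank K (Jc J (j + 1)) + Module.finrank K (homogeneousSubmodule (Fin n) K j) := by
  have hinj : Function.Injective (mulH (i := j) q hq) := by
    intro f g hfg
    have h1 := congrArg Subtype.val hfg
    rw [mulH_coe, mulH_coe] at h1
    exact Subtype.ext (mul_left_cancel₀ hq0 h1)
  have h1 : Jc J (j + 1) ⊓ LinearMap.range (mulH (i := j) q hq) =
      (Jc J j).map (mulH (i := j) q hq) := by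
    ext f
    rw [Submodule.mem_inf, LinearMap.mem_range, Submodule.mem_map]
    constructor
    · rintro ⟨hf, g, rfl⟩
      refine ⟨g, ?_, rfl⟩
      rw [mem_Jc, mulH_coe] at hf
      exact hreg _ hf
    · rintro ⟨g, hg, rfl⟩
      refine ⟨?_, g, rfl⟩
      rw [mem_Jc, mulH_coe]
      exact J.mul_mem_left _ hg
  have h2 := Submodule.finrank_sup_add_finrank_inf_eq (Jc J (j + 1))
    (LinearMap.range (mulH (i := j) q hq))
  rw [h1, LinearMap.finrank_range_of_inj hinj] at h2
  rw [← h2]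
  congr 1
  exact (LinearEquiv.finrank_eq (Submodule.equivMapOfInjective _ hinj _))

theorem eval_smul_hom {F : MvPolynomial (Fin n) K} {d : ℕ}
    (h : F.IsHomogeneous d) (t : K) (v : Fin n → K) :
    eval (fun i => t * v i) F = t ^ d * eval v F := by
  classical
  rw [eval_eq', eval_eq', Finset.mul_sum]
  refine Finset.sum_congr rfl fun e he => ?_
  have h1 := h (mem_support_iff.1 he)
  have h2 : ∑ i, e i = d := by
    rw [← h1, ← Finsupp.degree_eq_sum, Finsupp.degree_eq_weight_one]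
    rfl
  simp only [mul_pow]
  rw [Finset.prod_mul_distrib, Finset.prod_pow_eq_pow_sum, h2]
  ring

/-- a linear form without common zeros -/
theorem exists_lin [Infinite K] {κ : Type} (F : κ → MvPolynomial (Fin n) K) (d : κ → ℕ)
    (hF : ∀ i, (F i).IsHomogeneous (d i))
    (hfin : ∀ j, {x : Fin n → K | x j = 1 ∧ ∀ i, eval x (F i) = 0}.Finite) :
    ∃ ℓ : Fin n → K, ∀ z : Fin n → K, z ≠ 0 → (∀ i, eval z (F i) = 0) → eval z (lin ℓ) ≠ 0 := by
  classical
  have hZ : (⋃ j, {x : Fin n → K | x j = 1 ∧ ∀ i, eval x (F i) = 0}).Finite :=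
    Set.finite_iUnion hfin
  obtain ⟨Q, hQ⟩ : ∃ Q : MvPolynomial (Fin n) K, Q = ∏ z ∈ hZ.toFinset, ∑ k, C (z k) * X k :=
    ⟨_, rfl⟩
  have hQ0 : Q ≠ 0 := by
    rw [hQ, Finset.prod_ne_zero_iff]
    intro z hz h0
    rw [Set.Finite.mem_toFinset, Set.mem_iUnion] at hz
    obtain ⟨j, hj, -⟩ := hz
    have h1 := congrArg (eval (Pi.single j 1)) h0
    rw [map_sum, map_zero, Finset.sum_eq_single j] at h1
    · rw [map_mul, eval_C, eval_X, Pi.single_eq_same, mul_one, hj] at h1
      exact one_ne_zero h1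
    · intro k _ hk
      rw [map_mul, eval_C, eval_X, Pi.single_eq_of_ne hk, mul_zero]
    · intro h
      exact absurd (Finset.mem_univ j) h
  obtain ⟨ℓ, hℓ⟩ : ∃ ℓ : Fin n → K, eval ℓ Q ≠ 0 := by
    by_contra hcon
    push Not at hcon
    exact hQ0 (funext fun x => by rw [hcon, map_zero])
  refine ⟨ℓ, fun z hz0 hzF hzl => ?_⟩
  obtain ⟨j, hj⟩ : ∃ j, z j ≠ 0 := by
    by_contra hcon
    push Not at hcon
    exact hz0 (_root_.funext hcon)
  have h1 : (fun k => (z j)⁻¹ * z k) ∈ hZ.toFinset := by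
    rw [Set.Finite.mem_toFinset, Set.mem_iUnion]
    refine ⟨j, inv_mul_cancel₀ hj, fun i => ?_⟩
    rw [eval_smul_hom (hF i), hzF i, mul_zero]
  rw [hQ, map_prod, Finset.prod_ne_zero_iff] at hℓ
  apply hℓ _ h1
  rw [map_sum]
  rw [lin, map_sum] at hzl
  have h3 : (z j)⁻¹ * ∑ k, eval z (C (ℓ k) * X k) = 0 := by rw [hzl, mul_zero]
  rw [← h3, Finset.mul_sum]
  refine Finset.sum_congr rfl fun k _ => ?_
  rw [map_mul, eval_C, eval_X, map_mul, eval_C, eval_X]
  ring

/-- the linear form is regular -/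
theorem regular [IsAlgClosed K] {κ : Type} (F : κ → MvPolynomial (Fin n) K)
    (J : Ideal (MvPolynomial (Fin n) K))
    (hsat : ∀ f : MvPolynomial (Fin n) K, (∃ N : ℕ, ∀ i : Fin n, X i ^ N * f ∈ J) → f ∈ J)
    (hFJ : ∀ i, F i ∈ J) (ℓ : Fin n → K)
    (hℓ : ∀ z : Fin n → K, z ≠ 0 → (∀ i, eval z (F i) = 0) → eval z (lin ℓ) ≠ 0) :
    ∀ f, lin ℓ * f ∈ J → f ∈ J := by
  classical
  intro f hf
  apply hsat
  obtain ⟨I, hI⟩ : ∃ I : Ideal (MvPolynomial (Fin n) K), ∀ g, g ∈ I ↔ g * f ∈ J := by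
    refine ⟨{ carrier := {g | g * f ∈ J}
              add_mem' := ?_
              zero_mem' := ?_
              smul_mem' := ?_ }, fun g => Iff.rfl⟩
    · intro a b ha hb
      change (a + b) * f ∈ J
      rw [add_mul]
      exact J.add_mem ha hb
    · change 0 * f ∈ J
      rw [zero_mul]
      exact J.zero_mem
    · intro c a ha
      change (c • a) * f ∈ J
      rw [smul_eq_mul, mul_assoc]
      exact J.mul_mem_left _ ha
  have h1 : ∀ k : Fin n, ∃ N : ℕ, X k ^ N ∈ I := by
    intro k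
    have h2 : (X k : MvPolynomial (Fin n) K) ∈ I.radical := by
      rw [← vanishingIdeal_zeroLocus_eq_radical (K := K)]
      intro z hz
      have h3 : z = 0 := by
        by_contra hne
        refine hℓ z hne (fun i => ?_) ?_
        · have h4 := hz (F i) ((hI _).2 (J.mul_mem_right _ (hFJ i)))
          rwa [aeval_eq_eval] at h4
        · have h4 := hz (lin ℓ) ((hI _).2 hf)
          rwa [aeval_eq_eval] at h4
      rw [h3, aeval_X]
      rfl
    exact h2
  choose N hN using h1
  refine ⟨∑ k, N k, fun k => ?_⟩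
  rw [← hI]
  have h2 : X k ^ (∑ k, N k) = X k ^ (∑ k, N k - N k) * (X k ^ N k : MvPolynomial (Fin n) K) := by
    rw [← pow_add, Nat.sub_add_cancel]
    exact Finset.single_le_sum (f := N) (fun _ _ => Nat.zero_le _) (Finset.mem_univ k)
  rw [h2]
  exact I.mul_mem_left _ (hN k)

end Pool.Agent.U598.GR
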