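import Pool.Agent.U598.GR.Gor

/-!
Gorenstein quotients of polynomial rings: small values of the Hilbert function give zeros.
-/

set_option autoImplicit false

open MvPolynomial

namespace Pool.Agent.U598.GR

variable {K : Type} [Field K] {n : ℕ}

theorem lin_pow_hom (ℓ : Fin n → K) (d : ℕ) : (lin ℓ ^ d).IsHomogeneous d := by
  have := (lin_hom ℓ).pow d
  rwa [one_mul] at this

/-- an eigenvector acts as a point -/
theorem eig {lam : MvPolynomial (Fin n) K →ₗ[K] K} {ℓ z : Fin n → K} {t : ℕ}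
    {F : MvPolynomial (Fin n) K}
    (h : ∀ k, In lam (t + 1) (X k * F - C (z k) * (lin ℓ * F))) :
    ∀ d u : ℕ, d + u = t + 2 → ∀ G : MvPolynomial (Fin n) K, G.IsHomogeneous d →
      In lam u (G * F - C (eval z G) * (lin ℓ ^ d * F)) := by
  intro d
  induction d with
  | zero =>
    intro u hu G hG
    have h1 : G = C (coeff 0 G) := by
      rw [← totalDegree_eq_zero_iff_eq_C]
      exact Nat.le_zero.1 hG.totalDegree_le
    have h2 : G * F - C (eval z G) * (lin ℓ ^ 0 * F) = 0 := by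
      rw [h1, eval_C, pow_zero, one_mul, sub_self]
    rw [h2]
    exact In.zero
  | succ d ih =>
    intro u hu G hG
    obtain ⟨W, hW⟩ : ∃ W : Submodule K (MvPolynomial (Fin n) K), ∀ G, G ∈ W ↔
        In lam u (G * F - C (eval z G) * (lin ℓ ^ (d + 1) * F)) := by
      refine ⟨{ carrier := {G | In lam u (G * F - C (eval z G) * (lin ℓ ^ (d + 1) * F))}
                add_mem' := ?_
                zero_mem' := ?_
                smul_mem' := ?_ }, fun f => Iff.rfl⟩
      · intro a b h1 h2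
        have h3 : (a + b) * F - C (eval z (a + b)) * (lin ℓ ^ (d + 1) * F) =
            (a * F - C (eval z a) * (lin ℓ ^ (d + 1) * F)) +
            (b * F - C (eval z b) * (lin ℓ ^ (d + 1) * F)) := by
          rw [map_add, map_add]
          ring
        change In lam u _
        rw [h3]
        exact In.add h1 h2
      · change In lam u _
        rw [zero_mul, map_zero, map_zero, zero_mul, sub_zero]
        exact In.zero
      · intro c a h1
        have h3 : (c • a) * F - C (eval z (c • a)) * (lin ℓ ^ (d + 1) * F) =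
            C c * (a * F - C (eval z a) * (lin ℓ ^ (d + 1) * F)) := by
          rw [smul_eval, map_mul, smul_eq_C_mul]
          ring
        change In lam u _
        rw [h3]
        exact In.smul c h1
    have h1 : G ∈ W := by
      refine hom_succ hG fun k g hg => ?_
      rw [hW]
      have h2 : In lam u (X k * (g * F - C (eval z g) * (lin ℓ ^ d * F))) :=
        In.mul (ih (u + 1) (by omega) g hg) (isHomogeneous_X K k)
      have h3 : In lam u (lin ℓ ^ d * (X k * F - C (z k) * (lin ℓ * F))) := by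
        refine In.mul ?_ (lin_pow_hom ℓ d)
        have := h k
        rwa [show t + 1 = u + d by omega] at this
      have h4 : X k * g * F - C (eval z (X k * g)) * (lin ℓ ^ (d + 1) * F) =
          X k * (g * F - C (eval z g) * (lin ℓ ^ d * F)) +
          C (eval z g) * (lin ℓ ^ d * (X k * F - C (z k) * (lin ℓ * F))) := by
        rw [map_mul, eval_X, map_mul, pow_succ]
        ring
      rw [h4]
      exact h2.add (h3.smul _)
    exact (hW G).1 h1

theorem exists_zero [IsAlgClosed K] {lam : MvPolynomial (Fin n) K →ₗ[K] K} {p t : ℕ}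
    (hpt : p ≤ t) (hlam : ∃ f : MvPolynomial (Fin n) K, f.IsHomogeneous (p + 2 + t) ∧ lam f ≠ 0)
    {ℓ : Fin n → K}
    (h : ∀ k t' : ℕ, k + t' = t + 1 → ∀ f : MvPolynomial (Fin n) K, f.IsHomogeneous (p + k + 1) →
        ∃ g : MvPolynomial (Fin n) K, g.IsHomogeneous (p + k) ∧ In lam t' (f - lin ℓ * g)) :
    ∃ z : Fin n → K, z ≠ 0 ∧ ∀ d u : ℕ, d ≤ t + 2 → d + u = p + 2 + t →
      ∀ f : MvPolynomial (Fin n) K, f.IsHomogeneous d → In lam u f → eval z f = 0 := by
  classical
  obtain ⟨E, hE⟩ : ∃ E : LinearMap.ker (Bil lam p (t + 2)) ≠ ⊤, True := by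
    refine ⟨fun htop => ?_, trivial⟩
    obtain ⟨f, hf, hf0⟩ := hlam
    refine hf0 (nondeg p (b := t + 2) lam (fun g hg => ?_) f (by
      rwa [show p + (t + 2) = p + 2 + t by omega]))
    have h1 : (⟨g, hg⟩ : homogeneousSubmodule (Fin n) K p) ∈
        LinearMap.ker (Bil lam p (t + 2)) := by
      rw [htop]
      trivial
    exact (mem_ker_Bil _ _ _ _).1 h1
  have hnt : Nontrivial (homogeneousSubmodule (Fin n) K p ⧸ LinearMap.ker (Bil lam p (t + 2))) :=
    Submodule.Quotient.nontrivial_iff.2 E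
  have hbij := mulQ_bij (p := p) (t := t + 1) (ℓ := ℓ) (by omega) h
  have hinj : ∀ f : MvPolynomial (Fin n) K, f.IsHomogeneous p → In lam (t + 1) (lin ℓ * f) →
      In lam (t + 2) f := by
    intro f hf hfl
    refine inj (j := p) (t := t + 1) ?_ hf hfl
    have h1 := h (t + 1 - p) p (by omega)
    rwa [show p + (t + 1 - p) = t + 1 by omega] at h1
  have hinj1 : ∀ f : MvPolynomial (Fin n) K, f.IsHomogeneous (p + 1) → In lam t (lin ℓ * f) →
      In lam (t + 1) f := by
    intro f hf hfl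
    refine inj (j := p + 1) (t := t) ?_ hf hfl
    have h1 := h (t - p) (p + 1) (by omega)
    rwa [show p + (t - p) = t by omega] at h1
  obtain ⟨L, hL⟩ : ∃ L, L = LinearEquiv.ofBijective _ hbij := ⟨_, rfl⟩
  obtain ⟨T, hT⟩ : ∃ T : Fin n → Module.End K (homogeneousSubmodule (Fin n) K p ⧸
      LinearMap.ker (Bil lam p (t + 2))), ∀ k, T k = L.symm.toLinearMap ∘ₗ
        mulQ lam p (t + 1) (X k) (isHomogeneous_X K k) := ⟨_, fun _ => rfl⟩
  have hTmk : ∀ k, ∀ f g : homogeneousSubmodule (Fin n) K p,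
      T k (Submodule.Quotient.mk f) = Submodule.Quotient.mk g ↔
        In lam (t + 1) (X k * f.1 - lin ℓ * g.1) := by
    intro k f g
    rw [hT, LinearMap.comp_apply, LinearEquiv.coe_coe, LinearEquiv.symm_apply_eq, hL,
      LinearEquiv.ofBijective_apply, mulQ_mk, mulQ_mk, Submodule.Quotient.eq, mem_ker_Bil]
    rfl
  have hcomm : ∀ j k v, T j (T k v) = T k (T j v) := by
    intro j k v
    obtain ⟨f, rfl⟩ := Submodule.Quotient.mk_surjective _ v
    obtain ⟨f1, hf1⟩ := Submodule.Quotient.mk_surjective _ (T k (Submodule.Quotient.mk f))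
    obtain ⟨g1, hg1⟩ := Submodule.Quotient.mk_surjective _ (T j (Submodule.Quotient.mk f))
    rw [← hf1, ← hg1]
    obtain ⟨f2, hf2⟩ := Submodule.Quotient.mk_surjective _ (T j (Submodule.Quotient.mk f1))
    obtain ⟨g2, hg2⟩ := Submodule.Quotient.mk_surjective _ (T k (Submodule.Quotient.mk g1))
    rw [← hf2, ← hg2, Submodule.Quotient.eq, mem_ker_Bil]
    have a1 := (hTmk k f f1).1 hf1.symm
    have a2 := (hTmk j f g1).1 hg1.symm
    have a3 := (hTmk j f1 f2).1 hf2.symm
    have a4 := (hTmk k g1 g2).1 hg2.symm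
    have b : (f2 - g2 : homogeneousSubmodule (Fin n) K p).1 = f2.1 - g2.1 := rfl
    rw [b]
    refine hinj _ (f2.2.sub g2.2) (hinj1 _ ?_ ?_)
    · have := (lin_hom ℓ).mul (f2.2.sub g2.2)
      rwa [add_comm] at this
    · have c1 : In lam t (X j * (X k * f.1 - lin ℓ * f1.1)) := In.mul a1 (isHomogeneous_X K j)
      have c2 : In lam t (X k * (X j * f.1 - lin ℓ * g1.1)) := In.mul a2 (isHomogeneous_X K k)
      have c3 : In lam t (lin ℓ * (X j * f1.1 - lin ℓ * f2.1)) := In.mul a3 (lin_hom ℓ)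
      have c4 : In lam t (lin ℓ * (X k * g1.1 - lin ℓ * g2.1)) := In.mul a4 (lin_hom ℓ)
      have c5 : lin ℓ * (lin ℓ * (f2.1 - g2.1)) =
          (X k * (X j * f.1 - lin ℓ * g1.1) + lin ℓ * (X k * g1.1 - lin ℓ * g2.1)) -
          (X j * (X k * f.1 - lin ℓ * f1.1) + lin ℓ * (X j * f1.1 - lin ℓ * f2.1)) := by ring
      rw [c5]
      exact (c2.add c4).sub (c1.add c3)
  obtain ⟨v, hv0, z, hz⟩ := joint T hcomm
  obtain ⟨F, rfl⟩ := Submodule.Quotient.mk_surjective _ v
  have hF : ∀ k, In lam (t + 1) (X k * F.1 - C (z k) * (lin ℓ * F.1)) := by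
    intro k
    have h1 := hz k
    rw [← Submodule.Quotient.mk_smul, hTmk] at h1
    have h2 : X k * F.1 - C (z k) * (lin ℓ * F.1) = X k * F.1 - lin ℓ * (z k • F).1 := by
      rw [Submodule.coe_smul, smul_eq_C_mul]
      ring
    rw [h2]
    exact h1
  have hE := eig hF
  have hF0 : ¬ In lam (t + 2) F.1 := fun h1 =>
    hv0 ((Submodule.Quotient.mk_eq_zero _).2 ((mem_ker_Bil _ _ _ _).2 h1))
  have hlamC : ∀ (c : K) (f : MvPolynomial (Fin n) K), lam (C c * f) = c * lam f := by
    intro c f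
    rw [← smul_eq_C_mul, map_smul, smul_eq_mul]
  have hval : ∀ G : MvPolynomial (Fin n) K, G.IsHomogeneous (t + 2) →
      lam (G * F.1) = eval z G * lam (lin ℓ ^ (t + 2) * F.1) := by
    intro G hG
    have h1 := hE (t + 2) 0 rfl G hG 1 (isHomogeneous_one _ _)
    rw [mul_one, map_sub, hlamC, sub_eq_zero] at h1
    exact h1
  obtain ⟨κ, hκ⟩ : ∃ κ, κ = lam (lin ℓ ^ (t + 2) * F.1) := ⟨_, rfl⟩
  rw [← hκ] at hval
  obtain ⟨g, hg, hg0⟩ : ∃ g : MvPolynomial (Fin n) K, g.IsHomogeneous (t + 2) ∧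
      lam (g * F.1) ≠ 0 := by
    by_contra hcon
    push Not at hcon
    refine hF0 fun g hg => ?_
    rw [mul_comm]
    exact hcon g hg
  have hκ0 : κ ≠ 0 := by
    intro h0
    rw [hval g hg, h0, mul_zero] at hg0
    exact hg0 rfl
  have hℓz : eval z (lin ℓ) = 1 := by
    have h1 := hE 1 (t + 1) (by omega) (lin ℓ) (lin_hom ℓ) (lin ℓ ^ (t + 1)) (lin_pow_hom ℓ _)
    have h2 : (lin ℓ * F.1 - C (eval z (lin ℓ)) * (lin ℓ ^ 1 * F.1)) * lin ℓ ^ (t + 1) =
        lin ℓ ^ (t + 2) * F.1 - C (eval z (lin ℓ)) * (lin ℓ ^ (t + 2) * F.1) := by ring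
    rw [h2, map_sub, hlamC, ← hκ] at h1
    have h3 : (1 - eval z (lin ℓ)) * κ = 0 := by rw [sub_mul, one_mul, h1]
    rcases mul_eq_zero.1 h3 with h4 | h4
    · exact (sub_eq_zero.1 h4).symm
    · exact absurd h4 hκ0
  refine ⟨z, fun h0 => ?_, fun d u hd hu f hf hfI => ?_⟩
  · rw [h0, lin, map_sum, Finset.sum_eq_zero fun k _ => by
      rw [map_mul, eval_X, Pi.zero_apply, mul_zero]] at hℓz
    exact zero_ne_one hℓz
  · have h1 : lam (f * (lin ℓ ^ (t + 2 - d) * F.1)) = 0 := by
      refine hfI _ ?_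
      have := (lin_pow_hom ℓ (t + 2 - d)).mul F.2
      rwa [show t + 2 - d + p = u by omega] at this
    have h2 := hval (f * lin ℓ ^ (t + 2 - d)) (by
      have := hf.mul (lin_pow_hom ℓ (t + 2 - d))
      rwa [show d + (t + 2 - d) = t + 2 by omega] at this)
    rw [mul_assoc, h1, map_mul, map_pow, hℓz, one_pow, mul_one] at h2
    rcases mul_eq_zero.1 h2.symm with h3 | h3
    · exact h3
    · exact absurd h3 hκ0

end Pool.Agent.U598.GR
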